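import Mathlib
import Pool.Agent.X62.AD.Final

set_option autoImplicit false

/-!
The exceptions `l(n) > n` and the total stopping times `l(n)` of the Collatz function, and all real
additive functions: asymptotic independence, uniformly in the additive functions, in the intervals of
their values and in multiplicative weights; the joint limit law of `l(n)` and the number of prime factors
of `n`.
-/

namespace Pool.Agent.Results.MP_e43fce_nt.AdditiveFunctions

open Filter Topology Finset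

/-- the Collatz function -/
def C (n : ℕ) : ℕ := if n % 2 = 0 then n / 2 else 3 * n + 1

/-- `l` is the total stopping time `l(n)` of `n` -/
def IsTotalStoppingTime (n l : ℕ) : Prop := C^[l] n = 1 ∧ ∀ j < l, C^[j] n ≠ 1

/-- the number of odd terms among `n, C n, ..., C^(k-1) n` -/
def odds (k n : ℕ) : ℕ := ((Finset.range k).filter fun i => C^[i] n % 2 = 1).card

/-- `l(n) > n`, where `l(n) = ∞` is allowed: an exception to `l(n) ≤ n`. -/
def Exception (n : ℕ) : Prop := ∀ l : ℕ, IsTotalStoppingTime n l → n < l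

/-- the positive integers with the property `P` have the natural density `δ` -/
def HasDensity (P : ℕ → Prop) (δ : ℝ) : Prop :=
  Tendsto (fun N : ℕ => ({n : ℕ | 1 ≤ n ∧ n ≤ N ∧ P n}.ncard : ℝ) / N) atTop (𝓝 δ)

/-- `3 / log (4/3) * log n + x * log 6 * √(2 log n / (log (4/3))^3)` -/
noncomputable def bound (x : ℝ) (n : ℕ) : ℝ :=
  3 / Real.log (4 / 3) * Real.log n
    + x * (Real.log 6 * Real.sqrt (2 * Real.log n / Real.log (4 / 3) ^ 3))

/-- The distribution function of the standard normal law. -/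
noncomputable def Phi (x : ℝ) : ℝ :=
  ProbabilityTheory.cdf (ProbabilityTheory.gaussianReal 0 1) x

/-- `l(n)` is finite, at most `bound x n` and `≡ a` modulo `m`, and the number of odd terms before `1`
is `≡ b` modulo `m`. -/
def Level (m : ℕ) (a b : ℤ) (x : ℝ) (n : ℕ) : Prop :=
  ∃ l : ℕ, (l : ℝ) ≤ bound x n ∧ IsTotalStoppingTime n l ∧ (l : ℤ) ≡ a [ZMOD m] ∧ (odds l n : ℤ) ≡ b [ZMOD m]

/-- `l(n)` is finite and `|l(n) / log n - 3 / log (4/3)| ≤ η` -/
def Typical (η : ℝ) (n : ℕ) : Prop :=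
  ∃ l : ℕ, IsTotalStoppingTime n l ∧ |(l : ℝ) / Real.log n - 3 / Real.log (4 / 3)| ≤ η

/-- `f` is an additive function -/
def Additive (f : ℕ → ℝ) : Prop := ∀ m n : ℕ, m.Coprime n → f (m * n) = f m + f n

/-- `n` has at most `log log n + y √(log log n)` different prime factors -/
def FewPrimes (y : ℝ) (n : ℕ) : Prop :=
  (n.primeFactors.card : ℝ) ≤ Real.log (Real.log n) + y * Real.sqrt (Real.log (Real.log n))

open scoped Classical in
/-- THE PROPERTY `P` HAS THE FREQUENCY `l`, INDEPENDENTLY OF ALL ADDITIVE FUNCTIONS, with multiplicative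
weights: for all `d`, `c, ε > 0`, `x₀` and all coprime residue classes `r` modulo `Q` and all large `N`:
for every multiplicative `h` with `0 ≤ h ≤ 1` and `∑_{p ≤ x} h p ≥ c x / log x` for `x ≥ x₀`, every complex
multiplicative `g` with `|g| ≤ h`, all real additive functions `f₁, ..., f_d` and all intervals
`J₁, ..., J_d`, the sum of `g n` over the `n ≤ N`, `n ≡ r (mod Q)`, with `f_j n ∈ J_j` (`j = 1, ..., d`)
and the property `P` is `l` times the sum without the property `P`, up to `ε ∑_{n ≤ N} h n`. -/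
def Weighted (P : ℕ → Prop) (l : ℝ) : Prop := ∀ (d : ℕ) (c : ℝ) (x₀ : ℕ) (ε : ℝ) (Q r : ℕ), 0 < c → 0 < ε →
  1 ≤ Q → r.Coprime Q → ∃ N₀ : ℕ, ∀ N : ℕ, N₀ ≤ N → ∀ h : ArithmeticFunction ℝ, h.IsMultiplicative →
    (∀ n, 0 ≤ h n ∧ h n ≤ 1) →
    (∀ x : ℕ, x₀ ≤ x → c * (x / Real.log x) ≤ ∑ p ∈ (Icc 1 x).filter Nat.Prime, h p) →
    ∀ g : ArithmeticFunction ℂ, g.IsMultiplicative → (∀ n, ‖g n‖ ≤ h n) →
    ∀ f : Fin d → ℕ → ℝ, (∀ j, Additive (f j)) → ∀ J : Fin d → Set ℝ, (∀ j, (J j).OrdConnected) →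
    ‖∑ n ∈ (Icc 1 N).filter (fun n => n % Q = r % Q ∧ (∀ j, f j n ∈ J j) ∧ P n), g n -
      l * ∑ n ∈ (Icc 1 N).filter (fun n => n % Q = r % Q ∧ ∀ j, f j n ∈ J j), g n‖ ≤
      ε * ∑ n ∈ Icc 1 N, h n

/-- the same for numbers of integers in multiplicative sets: for all `d`, `c, ε > 0`, `x₀`, coprime
residue classes `r` modulo `Q` and all large `N`: for every set `E` of positive integers with `1 ∈ E` and
`m n ∈ E ↔ m ∈ E ∧ n ∈ E` for coprime `m, n` and at least `c x / log x` primes up to `x` for `x ≥ x₀`, all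
real additive functions `f_j` and all intervals `J_j` -/
def Counting (P : ℕ → Prop) (l : ℝ) : Prop := ∀ (d : ℕ) (c : ℝ) (x₀ : ℕ) (ε : ℝ) (Q r : ℕ), 0 < c → 0 < ε →
  1 ≤ Q → r.Coprime Q → ∃ N₀ : ℕ, ∀ N : ℕ, N₀ ≤ N → ∀ E : Set ℕ,
    (0 ∉ E ∧ 1 ∈ E ∧ ∀ m n : ℕ, m.Coprime n → (m * n ∈ E ↔ m ∈ E ∧ n ∈ E)) →
    (∀ x : ℕ, x₀ ≤ x → c * (x / Real.log x) ≤ {p : ℕ | p.Prime ∧ p ≤ x ∧ p ∈ E}.ncard) →
    ∀ f : Fin d → ℕ → ℝ, (∀ j, Additive (f j)) → ∀ J : Fin d → Set ℝ, (∀ j, (J j).OrdConnected) →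
    |({n : ℕ | n ≤ N ∧ n ∈ E ∧ n % Q = r % Q ∧ (∀ j, f j n ∈ J j) ∧ P n}.ncard : ℝ) -
      l * {n : ℕ | n ≤ N ∧ n ∈ E ∧ n % Q = r % Q ∧ ∀ j, f j n ∈ J j}.ncard| ≤
      ε * {n : ℕ | n ≤ N ∧ n ∈ E}.ncard

/-- `P` has the frequency `l` independently of all additive functions, with weights and in multiplicative
sets, and the set of the `n` with the property `P` and at most `log log n + y √(log log n)` prime factors
has the natural density `l Φ(y)` -/
def Independent (P : ℕ → Prop) (l : ℝ) : Prop :=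
  Weighted P l ∧ Counting P l ∧ ∀ y : ℝ, HasDensity (fun n => P n ∧ FewPrimes y n) (l * Phi y)

open Pool.Agent.X62.AD (RA RA_congr RA_squeeze RA_not RA_full RA_sets RA_ek rel_laws lln)

theorem indep {P : ℕ → Prop} {l : ℝ} (h : RA P l) : Independent P l :=
  ⟨fun d c x₀ ε Q r hc hε hQ hr => RA_full h d c x₀ ε Q r hc hε hQ hr,
    fun d c x₀ ε Q r hc hε hQ hr => RA_sets h d c x₀ ε Q r hc hε hQ hr, fun y => RA_ek h y⟩

theorem hit (n l : ℕ) (hn : 1 ≤ n) : IsTotalStoppingTime n l ↔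
    ∃ k, Pool.Agent.H499R2.HL.H k n ∧ l = k + Pool.Agent.H499R2.LT.odn k n :=
  Pool.Agent.Y964.LW.hitC hn

theorem fin_iff (n : ℕ) (hn : 1 ≤ n) : (∃ l, IsTotalStoppingTime n l) ↔ ∃ k, Pool.Agent.H499R2.HL.H k n := by
  constructor
  · rintro ⟨l, hl⟩
    obtain ⟨k, hk, _⟩ := (hit n l hn).1 hl
    exact ⟨k, hk⟩
  · rintro ⟨k, hk⟩
    exact ⟨_, (hit n _ hn).2 ⟨k, hk, rfl⟩⟩

/-- THE EXCEPTIONS `l(n) > n`, THE LIMIT LAW OF `l(n)` AND ALL ADDITIVE FUNCTIONS. Let `δ > 0` be the
natural density of the positive integers with finite `l(n)` (`δ = 1` if and only if `l(n)` is always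
finite). Independently of all real additive functions (in the sense of `Independent`: uniformly in
any number `d` of additive functions, in the intervals of their values and in the multiplicative weights)
and jointly with the Erdős–Kac law of the number of prime factors
(1) the exceptions `l(n) > n` (`l(n) = ∞` included) have the frequency `1 - δ`, and so have the
integers with `l(n) = ∞`;
(2) the integers with `l(n) ≤ 3 / log (4/3) log n + x log 6 √(2 log n / (log (4/3))^3)`, `l(n) ≡ a`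
and number of odd terms before `1` `≡ b` modulo `m` have the frequency `δ Φ(x) / m²`;
(3) for every `η > 0` the integers with `|l(n) / log n - 3 / log (4/3)| ≤ η` have the frequency `δ`. -/
theorem result : ∃ δ : ℝ, 0 < δ ∧ δ ≤ 1 ∧ (δ = 1 ↔ ∀ n : ℕ, 1 ≤ n → ∃ l, IsTotalStoppingTime n l) ∧
    HasDensity (fun n => ∃ l, IsTotalStoppingTime n l) δ ∧
    Independent Exception (1 - δ) ∧
    Independent (fun n => ¬ ∃ l, IsTotalStoppingTime n l) (1 - δ) ∧
    (∀ (m : ℕ) (a b : ℤ) (x : ℝ), 1 ≤ m → Independent (Level m a b x) (δ * Phi x / m ^ 2)) ∧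
    (∀ η : ℝ, 0 < η → Independent (Typical η) δ) := by
  obtain ⟨δ, h0, h1, h2, h3, h4, h5⟩ := rel_laws
  have hH : RA (fun n => ∃ l, IsTotalStoppingTime n l) δ :=
    RA_congr 1 (fun n hn => (fin_iff n hn).symm) h4
  have hll : ∀ η : ℝ, 0 < η → RA (Typical η) δ := by
    intro η hη
    have hrr := Pool.Agent.H499R2.HL.rr_pos
    have hl6 : 0 < Real.log 6 := Real.log_pos (by norm_num)
    have h6 := lln (f := fun k n => ((k + Pool.Agent.H499R2.LT.odn k n : ℕ) : ℝ))
      (α := 3 / Real.log (4 / 3))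
      (σ := Real.log 6 * Pool.Agent.H499R2.HL.rr) (δ := δ) (η := η) (by positivity) h0.le h1 hη (fun x => by
        have h7 := ((h5 1 0 0 le_rfl).2.2 x).2.1
        have e1 : δ / ((1 : ℕ) : ℝ) ^ 2 * Pool.Agent.H499R2.ND.Phi x = δ * Pool.Agent.H499R2.ND.Phi x := by simp
        rw [e1] at h7
        refine RA_congr 0 (fun n _ => exists_congr fun k => and_congr_right fun _ => ?_) h7
        rw [← Pool.Agent.Y964.LW.bc_thr]
        simp [Int.modEq_one]) h4
    refine RA_congr 2 (fun n hn => ?_) h6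
    have hL : 0 < Real.log n := Real.log_pos (by exact_mod_cast (by omega : 1 < n))
    have e : ∀ t : ℕ, |(t : ℝ) - 3 / Real.log (4 / 3) * Real.log n| ≤ η * Real.log n ↔
        |(t : ℝ) / Real.log n - 3 / Real.log (4 / 3)| ≤ η := by
      intro t
      have e1 : (t : ℝ) - 3 / Real.log (4 / 3) * Real.log n =
          ((t : ℝ) / Real.log n - 3 / Real.log (4 / 3)) * Real.log n := by field_simp
      rw [e1, abs_mul, abs_of_pos hL]
      exact mul_le_mul_iff_left₀ hL
    unfold Typical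
    constructor
    · rintro ⟨k, hk, h8⟩
      exact ⟨_, (hit n _ (by omega)).2 ⟨k, hk, rfl⟩, (e _).1 h8⟩
    · rintro ⟨l, hl, h8⟩
      obtain ⟨k, hk, rfl⟩ := (hit n l (by omega)).1 hl
      exact ⟨k, hk, (e _).2 h8⟩
  have hTE : ∃ n0 : ℕ, ∀ n, n0 ≤ n → Typical 1 n → ¬ Exception n := by
    have tl : Tendsto (fun n : ℕ => Real.log n / n) atTop (𝓝 0) := by
      have := Real.isLittleO_log_id_atTop.tendsto_div_nhds_zero
      exact this.comp tendsto_natCast_atTop_atTop
    have hnu : 0 < Real.log (4 / 3) := Real.log_pos (by norm_num)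
    obtain ⟨n0, hn0⟩ := eventually_atTop.1 ((tl.const_mul (3 / Real.log (4 / 3) + 1)).eventually_lt_const
      (show (3 / Real.log (4 / 3) + 1) * 0 < 1 by rw [mul_zero]; exact one_pos))
    refine ⟨n0 + 2, fun n hn => ?_⟩
    rintro ⟨l, hl, h8⟩ h
    have h9 := h l hl
    have h10 := hn0 n (by omega)
    have hnR : (0 : ℝ) < n := by exact_mod_cast (by omega : 0 < n)
    have hL : 0 < Real.log n := Real.log_pos (by exact_mod_cast (by omega : 1 < n))
    have h11 := (abs_le.1 h8).2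
    have h12 : (l : ℝ) / Real.log n ≤ 3 / Real.log (4 / 3) + 1 := by linarith
    rw [div_le_iff₀ hL] at h12
    have h13 : (n : ℝ) < l := by exact_mod_cast h9
    rw [← mul_div_assoc, div_lt_one hnR] at h10
    linarith
  have hE : RA Exception (1 - δ) := by
    obtain ⟨n0, hn0⟩ := hTE
    refine RA_squeeze fun ζ hζ =>
      ⟨fun n => ¬ ∃ l, IsTotalStoppingTime n l, fun n => ¬ Typical 1 n, 1 - δ, 1 - δ, n0, fun n _ h => ?_,
        fun n hn h => ?_, RA_not hH (fun _ => Iff.rfl),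
        RA_not (hll 1 one_pos) (fun _ => Iff.rfl), le_rfl, le_rfl, by linarith⟩
    · intro l hl
      exact absurd ⟨l, hl⟩ h
    · intro h8
      exact hn0 n hn h8 h
  have hL : ∀ (m : ℕ) (a b : ℤ) (x : ℝ), 1 ≤ m → RA (Level m a b x) (δ * Phi x / m ^ 2) := by
    intro m a b x hm
    have h6 := ((h5 m a b hm).2.2 x).2.1
    have e : δ / (m : ℝ) ^ 2 * Pool.Agent.H499R2.ND.Phi x = δ * Phi x / m ^ 2 := by
      unfold Phi
      rw [← Pool.Agent.H499R2.ND.phi_cdf]
      ring
    rw [e] at h6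
    refine RA_congr 1 (fun n hn => ?_) h6
    constructor
    · rintro ⟨k, hk, g1, g2, g3⟩
      refine ⟨_, g1, (hit n _ hn).2 ⟨k, hk, rfl⟩, g2, ?_⟩
      have : odds (k + Pool.Agent.H499R2.LT.odn k n) n = Pool.Agent.H499R2.LT.odn k n :=
        Pool.Agent.Y964.LW.ocn_run k n
      rw [this]
      exact g3
    · rintro ⟨l, g1, hl, g2, g3⟩
      obtain ⟨k, hk, rfl⟩ := (hit n l hn).1 hl
      have : odds (k + Pool.Agent.H499R2.LT.odn k n) n = Pool.Agent.H499R2.LT.odn k n :=
        Pool.Agent.Y964.LW.ocn_run k n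
      rw [this] at g3
      exact ⟨k, hk, g1, g2, g3⟩
  refine ⟨δ, h0, h1, ?_, ?_, indep hE, indep (RA_not hH (fun _ => Iff.rfl)),
    fun m a b x hm => indep (hL m a b x hm), fun η hη => indep (hll η hη)⟩
  · rw [h2]
    refine forall₂_congr fun n hn => ?_
    rw [fin_iff n hn]
    exact Pool.Agent.Y964.LW.hit_iff n
  · refine Pool.Agent.H499R2.LT.Dn_iff (fun n hn => ?_) h3
    rw [fin_iff n hn]
    exact Pool.Agent.Y964.LW.hit_iff n

end Pool.Agent.Results.MP_e43fce_nt.AdditiveFunctions
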