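import Pool.Agent.X266.CD.Cor2

set_option autoImplicit false

/-!
# The inequality `l(n) ≤ n` and the fractional parts of polynomials

Let `α` be irrational and not a Liouville number and let `P` be a real polynomial of degree `k ≥ 2` with leading
coefficient `α`. The exceptions to the inequality `l(n) ≤ n` have among the `n` for which the fractional part of
`P n` is in an interval the density which they have among all integers; more precisely all bounded functions of
`l(n)` and of the number of odd terms have the same averages there, with a power saving which is uniform in the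
function, the polynomial and the interval; so this also holds in the sparse sets of the `n ≤ X` with fractional
part less than `X ^ (-ν)`. Each of the sparse sets `E = {n : {P n} < n ^ (-ν)}` is sufficient for the problem: if
`l(n) ≤ n ^ B` holds for the elements of `E`, with up to `C X ^ (1 - ν - θ)` exceptions `n ≤ X`, with
`B = B(θ, C) > 0`, then `l(n) ≤ n` for all large `n`; with an arbitrary `B` one gets a polynomial bound.

Method: a dispersion argument. For `2 ^ k ≤ X ^ (1 / 16)` the pair (total stopping time, number of odd terms) of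
`n > √X` is a function of `T^k(n)`, `T` the shortcut function, and the number `a` of odd terms before it. For each
`a` the number of the fibres of `T^k` times their range is about `X`, so that every power saving, on average over
`h`, for the correlations of the phases `P` at `n` and `n + h` in residue classes modulo `2 ^ k` is a saving
for the sum. The sufficiency follows from this with the function `n ↦ [n reaches a]` and the uniform lower bound
`c X / a` for the number of the `n` in `(X / 2, X]` which reach `a`.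
-/

namespace Pool.Agent.Results.MP_e43fce_nt.FractionalParts

open Filter Topology

/-- the Collatz function -/
def C (n : ℕ) : ℕ := if n % 2 = 0 then n / 2 else 3 * n + 1

/-- the total stopping time `l(n)`, the least `k ≥ 0` with `C^k(n) = 1`, and `⊤ = ∞` if there is none -/
noncomputable def l (n : ℕ) : ℕ∞ := sInf {k : ℕ∞ | ∃ j : ℕ, C^[j] n = 1 ∧ k = j}

/-- the number of odd terms among `n, C n, ..., C^(k-1) n` -/
def odds (k n : ℕ) : ℕ := ((Finset.range k).filter fun i => C^[i] n % 2 = 1).card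

/-- `l(n)` is finite and at most `y` -/
def AtMost (n : ℕ) (y : ℝ) : Prop := ∃ t : ℕ, l n = t ∧ (t : ℝ) ≤ y

/-- `3 / log (4/3) * log n + x * log 6 * √(2 log n / (log (4/3))^3)` -/
noncomputable def bound (x : ℝ) (n : ℕ) : ℝ :=
  3 / Real.log (4 / 3) * Real.log n
    + x * (Real.log 6 * Real.sqrt (2 * Real.log n / Real.log (4 / 3) ^ 3))

/-- The distribution function of the standard normal law. -/
noncomputable def Phi (x : ℝ) : ℝ :=
  ProbabilityTheory.cdf (ProbabilityTheory.gaussianReal 0 1) x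

/-- `l(n)` is finite, at most `bound x n` and congruent to `a` modulo `m`, and the number of odd terms of
the trajectory before `1` is reached is congruent to `b` modulo `m`. -/
def Level (m : ℕ) (a b : ℤ) (x : ℝ) (n : ℕ) : Prop :=
  ∃ t : ℕ, l n = t ∧ (t : ℝ) ≤ bound x n ∧ (t : ℤ) ≡ a [ZMOD m] ∧ (odds t n : ℤ) ≡ b [ZMOD m]

/-- `n` is an exception to the inequality `l(n) ≤ n`. -/
def Exceptional (n : ℕ) : Prop := (n : ℕ∞) < l n

/-- `α` is irrational and not a Liouville number. -/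
def Diophantine (α : ℝ) : Prop :=
  ∃ A c : ℝ, 0 < c ∧ ∀ l : ℕ, 1 ≤ l → ∀ a : ℤ, c * (l : ℝ) ^ (-A) ≤ |l * α - a|

/-- The set of the `n` for which the fractional part of `P n` is in `[u, v)`. -/
def Part (P : Polynomial ℝ) (u v : ℝ) : Set ℕ := {n | u ≤ Int.fract (P.eval (n : ℝ)) ∧ Int.fract (P.eval (n : ℝ)) < v}

/-- The set of the `n` for which the fractional part of `P n` is less than `n ^ (-ν)`. -/
def Sparse (P : Polynomial ℝ) (ν : ℝ) : Set ℕ := {n | Int.fract (P.eval (n : ℝ)) < (n : ℝ) ^ (-ν)}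

open Classical in
/-- The sum of `φ (l(n), number of odd terms before 1)` over the `n ≤ X` in `E` with `n ≡ b` modulo `M`. -/
noncomputable def total (φ : ℕ∞ → ℕ → ℝ) (M : ℕ) (b : ℤ) (E : Set ℕ) (X : ℕ) : ℝ :=
  ∑ n ∈ (Finset.Icc 1 X).filter (fun n : ℕ => (M : ℤ) ∣ n - b ∧ n ∈ E), φ (l n) (odds (l n).toNat n)

/-- The number of the `n ≤ X` in `E` with the property `P`. -/
noncomputable def count (E : Set ℕ) (P : ℕ → Prop) (X : ℕ) : ℕ := {n : ℕ | 1 ≤ n ∧ n ≤ X ∧ n ∈ E ∧ P n}.ncard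

open Pool.Agent.H499R2.HL Pool.Agent.Y965.PL Pool.Agent.X266.CD Pool.Agent.Y55.DS
open Pool.Agent.H499R2.LT (odn)

theorem C_eq : C = Pool.Agent.H499R2.ND.CC := by funext a; rfl

theorem l_eq {n t : ℕ} (h : Ts n t) : l n = t := by
  unfold l
  rw [C_eq]
  apply le_antisymm
  · exact sInf_le ⟨t, h.1, rfl⟩
  · refine le_sInf ?_
    rintro j ⟨i, hi, rfl⟩
    have : t ≤ i := by
      by_contra hlt
      exact h.2 i (by omega) hi
    exact_mod_cast this

theorem l_top {n : ℕ} (h : ¬ ∃ k, H k n) : l n = ⊤ := by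
  unfold l
  rw [C_eq]
  have : {k : ℕ∞ | ∃ j : ℕ, Pool.Agent.H499R2.ND.CC^[j] n = 1 ∧ k = j} = ∅ := by
    rw [Set.eq_empty_iff_forall_notMem]
    rintro k ⟨j, hj, _⟩
    exact h (CC_ex.1 ⟨j, hj⟩)
  rw [this, sInf_empty]

theorem l_H {n k : ℕ} (h : H k n) : l n = ((k + Pool.Agent.H499R2.LT.odn k n : ℕ) : ℕ∞) :=
  l_eq (Ts_of_H h).1

theorem l_ne_top {n : ℕ} : l n ≠ ⊤ ↔ ∃ k, H k n := by
  constructor
  · intro h
    by_contra hcon
    exact h (l_top hcon)
  · rintro ⟨k, hk⟩
    rw [l_H hk]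
    exact ENat.natCast_ne_top _

theorem l_iff {n t : ℕ} : l n = t ↔ Ts n t := by
  constructor
  · intro h
    obtain ⟨k, hk⟩ := l_ne_top.1 (show l n ≠ ⊤ by rw [h]; exact ENat.natCast_ne_top t)
    have h1 := l_H hk
    rw [h] at h1
    have h2 : t = k + Pool.Agent.H499R2.LT.odn k n := by exact_mod_cast h1
    rw [h2]; exact (Ts_of_H hk).1
  · exact l_eq

theorem log_small (B : ℝ) : ∀ᶠ n : ℕ in atTop, B * Real.log n < n := by
  have h1 : Tendsto (fun x : ℝ => Real.log x / x) atTop (𝓝 0) := by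
    have := Real.isLittleO_log_id_atTop.tendsto_div_nhds_zero
    exact this
  have h2 := (h1.comp tendsto_natCast_atTop_atTop).const_mul (|B| + 1)
  rw [mul_zero] at h2
  filter_upwards [h2.eventually (gt_mem_nhds zero_lt_one), eventually_ge_atTop 1] with n h3 h4
  have hn : (0 : ℝ) < n := by exact_mod_cast h4
  have h5 : (|B| + 1) * Real.log n < n := by
    have h6 : (|B| + 1) * (Real.log n / n) < 1 := h3
    rw [← mul_div_assoc, div_lt_one hn] at h6
    exact h6
  have h7 : 0 ≤ Real.log (n : ℝ) := Real.log_natCast_nonneg n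
  have h8 := le_abs_self B
  nlinarith

theorem atMost_iff {n : ℕ} {y : ℝ} : AtMost n y ↔ ∃ k, H k n ∧ valL k (odn k n) ≤ y := by
  unfold AtMost valL
  constructor
  · rintro ⟨t, h1, h2⟩
    obtain ⟨k, hk, rfl⟩ := H_of_Ts t n (l_iff.1 h1)
    exact ⟨k, hk, h2⟩
  · rintro ⟨k, hk, h2⟩
    exact ⟨_, l_H hk, h2⟩

theorem odds_eq (t n : ℕ) : odds t n = Pool.Agent.H499R2.LT.ocn t n := by
  unfold odds Pool.Agent.H499R2.LT.ocn
  rw [C_eq]

theorem level_iff (m : ℕ) (a b : ℤ) (x : ℝ) (n : ℕ) : Level m a b x n ↔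
    Lv valL (clsL m a b) (th (3 / Real.log (4 / 3)) bL x) n := by
  rw [← true_and (Lv valL (clsL m a b) (th (3 / Real.log (4 / 3)) bL x) n), ← level_iff_C]
  unfold Level
  refine exists_congr fun t => ?_
  rw [l_iff, odds_eq]
  constructor
  · rintro ⟨h1, h2, h3, h4⟩; exact ⟨h2, h1, h3, h4⟩
  · rintro ⟨h1, h2, h3, h4⟩; exact ⟨h2, h1, h3, h4⟩

theorem phi_Fg (φ : ℕ∞ → ℕ → ℝ) (n : ℕ) :
    φ (l n) (odds (l n).toNat n) = Fg (fun k o => φ ((k + o : ℕ) : ℕ∞) o) (φ ⊤ 0) n := by
  by_cases h : ∃ k, H k n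
  · obtain ⟨k, hk⟩ := h
    rw [Fg_H hk, l_H hk, ENat.toNat_natCast, odds_eq, (Ts_of_H hk).2]
  · rw [Fg_not h, l_top h, ENat.toNat_top]
    rfl

theorem count_eq (E : Set ℕ) (P : ℕ → Prop) (X : ℕ) :
    (count E P X : ℝ) = ∑ n ∈ Finset.Icc 1 X, ind (fun n => n ∈ E) n * ind P n := count_sum X (fun n => n ∈ E) P

/-- exceptions are, up to a set of density zero, the integers which do not reach `1` -/
theorem exc_close {δ : ℝ} (hδ : Nat2 δ) : ∃ v : ℕ → ℝ, MnS (fun n => n) v 0 ∧ (∀ n, 0 ≤ v n) ∧ (∀ n, v n ≤ 1) ∧ ∃ m0 : ℕ,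
    ∀ m, m0 ≤ m → |ind Exceptional m - (1 - ind (fun n => ∃ k, H k n) m)| ≤ v m := by
  refine ⟨_, bad_zero (fun n => le_rfl) bL_pos (lawId_L hδ) one_pos, fun n => ind_nonneg _ _, fun n => ind_le_one _ _, ?_⟩
  obtain ⟨m0, hm0⟩ := (log_small (3 / Real.log (4 / 3) + 1)).exists_forall_of_atTop
  refine ⟨m0, fun m hm => ?_⟩
  by_cases hf : ∃ k, H k m
  · rw [ind_pos (P := fun n => ∃ k, H k n) hf, sub_self, sub_zero, abs_of_nonneg (ind_nonneg _ _)]
    apply ind_mono
    intro hex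
    obtain ⟨k, hk⟩ := hf
    refine ⟨trivial, k, hk, ?_⟩
    unfold Exceptional at hex
    rw [l_H hk] at hex
    have h6 : m < k + odn k m := by exact_mod_cast hex
    have h7 : (m : ℝ) < ((k + odn k m : ℕ) : ℝ) := by exact_mod_cast h6
    have h8 := hm0 m hm
    have h9 : valL k (odn k m) = ((k + odn k m : ℕ) : ℝ) := rfl
    rw [h9]
    apply lt_of_lt_of_le _ (le_abs_self _)
    linarith
  · rw [ind_neg (P := fun n => ∃ k, H k n) hf, ind_pos (P := Exceptional) (by
      unfold Exceptional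
      rw [l_top hf]
      exact ENat.natCast_lt_top m), sub_zero, sub_self, abs_zero]
    exact ind_nonneg _ _

/-- small powers -/
theorem half_pow {K : ℝ} (hK : 1 ≤ K) : ∀ᶠ n : ℕ in atTop,
    (max (K * (n : ℝ) ^ K) 0) ^ (1 / (2 * K)) + K * (1 + Real.log n) ≤ n := by
  have h1 : Tendsto (fun n : ℕ => (n : ℝ) ^ (1 / 2 : ℝ)) atTop atTop :=
    (tendsto_rpow_atTop (by norm_num)).comp tendsto_natCast_atTop_atTop
  filter_upwards [h1.eventually_ge_atTop (2 * K ^ (1 / (2 * K))), log_small (4 * K),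
    eventually_ge_atTop 3, (tendsto_natCast_atTop_atTop (R := ℝ)).eventually_ge_atTop (4 * K)] with n h2 h3 h4 h5
  have hn0 : (0 : ℝ) < n := by exact_mod_cast (by omega : 0 < n)
  have e1 : max (K * (n : ℝ) ^ K) 0 = K * (n : ℝ) ^ K := max_eq_left (by positivity)
  have e2 : (K * (n : ℝ) ^ K) ^ (1 / (2 * K)) = K ^ (1 / (2 * K)) * (n : ℝ) ^ (1 / 2 : ℝ) := by
    rw [Real.mul_rpow (by linarith) (by positivity), ← Real.rpow_mul hn0.le]
    congr 2
    field_simp
  rw [e1, e2]
  have e3 : (n : ℝ) ^ (1 / 2 : ℝ) * (n : ℝ) ^ (1 / 2 : ℝ) = n := by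
    rw [← Real.rpow_add hn0]; norm_num
  have h6 : 0 < (n : ℝ) ^ (1 / 2 : ℝ) := by positivity
  have h7 : 2 * (K ^ (1 / (2 * K)) * (n : ℝ) ^ (1 / 2 : ℝ)) ≤ n := by
    have h8 := mul_le_mul_of_nonneg_right h2 h6.le
    rw [e3] at h8
    linarith
  linarith

/-- polynomial bounds -/
theorem poly_bound {K B : ℝ} (hK : 1 ≤ K) (hB : 0 ≤ B) : ∀ᶠ n : ℕ in atTop,
    (max (K * (n : ℝ) ^ K) 0) ^ B + K * (1 + Real.log n) ≤ (n : ℝ) ^ (K * B + 1) := by
  filter_upwards [log_small (2 * K), eventually_ge_atTop 3,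
    (tendsto_natCast_atTop_atTop (R := ℝ)).eventually_ge_atTop (2 * (K ^ B + K))] with n h3 h4 h5
  have hn1 : (1 : ℝ) ≤ n := by exact_mod_cast (by omega : 1 ≤ n)
  have hn0 : (0 : ℝ) < n := by linarith
  have e1 : max (K * (n : ℝ) ^ K) 0 = K * (n : ℝ) ^ K := max_eq_left (by positivity)
  have e2 : (K * (n : ℝ) ^ K) ^ B = K ^ B * (n : ℝ) ^ (K * B) := by
    rw [Real.mul_rpow (by linarith) (by positivity), ← Real.rpow_mul hn0.le]
  rw [e1, e2, Real.rpow_add hn0, Real.rpow_one]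
  have h6 : 1 ≤ (n : ℝ) ^ (K * B) := Real.one_le_rpow hn1 (by positivity)
  have h7 : K * (1 + Real.log n) ≤ (n : ℝ) ^ (K * B) * (K * (1 + Real.log n)) := by
    have : 0 ≤ K * (1 + Real.log n) := by
      have := Real.log_nonneg hn1
      positivity
    exact le_mul_of_one_le_left this h6
  have h8 : K ^ B + K * (1 + Real.log n) ≤ n := by
    have : 0 ≤ K ^ B := by positivity
    linarith
  have h9 := mul_le_mul_of_nonneg_left h8 (by linarith : 0 ≤ (n : ℝ) ^ (K * B))
  linarith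

theorem mono_pow {B : ℝ} (hB : 0 ≤ B) : Monotone (fun y : ℝ => (max y 0) ^ B) := by
  intro y z hyz
  exact Real.rpow_le_rpow (le_max_right _ _) (max_le_max_right _ hyz) hB

/-- the density of the exceptions in a class -/
theorem exc_dens {δ ρ K c : ℝ} (hδ : Nat2 δ) {w : ℕ → ℝ} (hw0 : ∀ n, 0 ≤ w n) (hw1 : ∀ n, w n ≤ 1) (hc : 0 < c)
    (hT : ∀ N : ℕ, 1 ≤ N → TrF w (fun _ => 1) ρ (K * (N : ℝ) ^ (1 - c)) N) :
    Mn (fun n => w n * ind Exceptional n) (ρ * (1 - δ)) := by
  obtain ⟨v, hv, hv0, hv1, m0, hm0⟩ := exc_close hδ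
  have h1 : Mn (fun n => w n * 1) (ρ * 1) := Tr_Mn (v := fun _ => 1) (G := fun _ => 1) hc
    (fun N hN => (hT N hN).one) (by simpa using Mn_const 1)
  have h2 : Mn (fun n => w n * ind (fun n => ∃ k, H k n) n) (ρ * δ) := Tr_Mn (v := fun _ => 1) hc
    (fun N hN => (hT N hN).fin) (by
      have h := hδ.fin
      have e : ind (fun n => True ∧ ∃ k, H k n) = fun n => 1 * ind (fun n => ∃ k, H k n) n := by
        funext n
        rw [one_mul]
        exact ind_congr (by simp)
      rw [e] at h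
      exact h)
  have h3 := h1.sub h2
  have e : ρ * 1 - ρ * δ = ρ * (1 - δ) := by ring
  rw [e] at h3
  have h4 : MnS (fun n => n) (fun n => w n * ind Exceptional n) (ρ * (1 - δ)) := by
    refine MnS_close (fun n => le_rfl) (MnS_id h3) hv zero_le_two (fun m => ?_) hv0 (m0 := m0) ?_
    · have a1 := ind_nonneg Exceptional m
      have a2 := ind_le_one Exceptional m
      have a3 := ind_nonneg (fun n => ∃ k, H k n) m
      have a4 := ind_le_one (fun n => ∃ k, H k n) m
      have a5 := hw0 m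
      have a6 := hw1 m
      rw [abs_le]; constructor <;> nlinarith
    · intro m hm
      have e2 : w m * ind Exceptional m - (w m * 1 - w m * ind (fun n => ∃ k, H k n) m) =
          w m * (ind Exceptional m - (1 - ind (fun n => ∃ k, H k n) m)) := by ring
      rw [e2, abs_mul, abs_of_nonneg (hw0 m)]
      calc w m * |ind Exceptional m - (1 - ind (fun n => ∃ k, H k n) m)| ≤ 1 * v m :=
            mul_le_mul (hw1 m) (hm0 m hm) (abs_nonneg _) zero_le_one
        _ = v m := one_mul _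
  exact h4

theorem total_eq (φ : ℕ∞ → ℕ → ℝ) (M : ℕ) (b : ℤ) (P : Polynomial ℝ) (u v : ℝ) (X : ℕ) : total φ M b (Part P u v) X =
    ∑ n ∈ Finset.Icc 1 X, ind (Fr M b P u v) n * Fg (fun k o => φ ((k + o : ℕ) : ℕ∞) o) (φ ⊤ 0) n := by
  classical
  unfold total
  simp only [phi_Fg]
  rw [sum_wt]
  rfl

theorem total_univ (φ : ℕ∞ → ℕ → ℝ) (M : ℕ) (b : ℤ) (X : ℕ) : total φ M b Set.univ X =
    ∑ n ∈ Finset.Icc 1 X, ind (fun n => (M : ℤ) ∣ n - b) n * Fg (fun k o => φ ((k + o : ℕ) : ℕ∞) o) (φ ⊤ 0) n := by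
  classical
  unfold total
  simp only [phi_Fg]
  rw [sum_wt]
  apply Finset.sum_congr rfl
  intro n _
  congr 1
  apply ind_congr
  simp

/-- There is a number `δ`, `0 < δ ≤ 1`, with the following properties; `δ = 1` if and only if `l(n) < ∞` for all
`n ≥ 1`. Let `k ≥ 2` and let `α` be irrational and not a Liouville number. All the polynomials `P` below have
degree `k` and the leading coefficient `α`.

(1) (Uniform transfer.) For `M ≥ 1` there are `K` and `c > 0` such that for all functions `φ` of `l(n)` and the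
number of odd terms, bounded by one, all `P`, `0 ≤ u ≤ v ≤ 1`, `b` and `X`, the sum of `φ` over the `n ≤ X`,
`n ≡ b` modulo `M`, with the fractional part of `P n` in `[u, v)` is, up to `K X ^ (1 - c)`, `v - u` times the sum
over all `n ≤ X`, `n ≡ b` modulo `M`.

(2) There are `K` and `c > 0` such that for every `ε > 0` and all large `X`, for all `P` and `0 ≤ u ≤ v ≤ 1` at
once: the number of the exceptions `n ≤ X` to `l(n) ≤ n` with the fractional part of `P n` in `[u, v)` is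
`(v - u) (1 - δ) X`, up to `ε (v - u) X + K X ^ (1 - c)`; and the number of the `n ≤ X` with the fractional part of
`P n` in `[u, v)` such that `l(n)` is finite, at most `bound x n`, congruent to `a'` modulo `m'` and the number of
odd terms is congruent to `b'` modulo `m'` is `(v - u) * δ * Phi x / m' ^ 2 * X`, with an error of the same size.

There is `ν₀ > 0`, depending on `k` and `α` only, such that for all `P` and `0 ≤ ν < ν₀`:

(3) (Sufficiency.) For `θ > 0` and `C'` there is `B > 0` such that if for every `X` all but `C' X ^ (1 - ν - θ)` of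
the `n ≤ X` for which the fractional part of `P n` is less than `n ^ (-ν)` satisfy `l(n) ≤ n ^ B`, then
`l(n) ≤ n` for all large `n`: a positive answer to the problem.

(4) There is `A` with `l(n) ≤ n ^ A` for all large `n` if and only if for some `B`, `C'` and `θ > 0`, for every
`X`, all but `C' X ^ (1 - ν - θ)` of the `n ≤ X` for which the fractional part of `P n` is less than `n ^ (-ν)`
satisfy `l(n) ≤ n ^ B`.

(5) For `θ > 0` and `C'` there is `K` such that for every nondecreasing function `ψ`: if for every `X` all but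
`C' X ^ (1 - ν - θ)` of the `n ≤ X` for which the fractional part of `P n` is less than `n ^ (-ν)` satisfy
`l(n) ≤ ψ(n)`, then `l(n) ≤ ψ(K n ^ K) + K (1 + log n)` for all positive integers `n`. -/
theorem result : ∃ δ : ℝ, 0 < δ ∧ δ ≤ 1 ∧ (δ = 1 ↔ ∀ n : ℕ, 1 ≤ n → l n ≠ ⊤) ∧
    ∀ (k : ℕ) (α : ℝ), 2 ≤ k → Diophantine α →
    (∀ M : ℕ, 1 ≤ M → ∃ K c : ℝ, 0 < c ∧ ∀ φ : ℕ∞ → ℕ → ℝ, (∀ s o, |φ s o| ≤ 1) →
      ∀ P : Polynomial ℝ, P.natDegree ≤ k → P.coeff k = α → ∀ u v : ℝ, 0 ≤ u → u ≤ v → v ≤ 1 →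
      ∀ (b : ℤ) (X : ℕ), 1 ≤ X →
        |total φ M b (Part P u v) X - (v - u) * total φ M b Set.univ X| ≤ K * (X : ℝ) ^ (1 - c)) ∧
    (∃ K c : ℝ, 0 < c ∧
      (∀ ε : ℝ, 0 < ε → ∃ X₀ : ℕ, ∀ X : ℕ, X₀ ≤ X →
        ∀ P : Polynomial ℝ, P.natDegree ≤ k → P.coeff k = α → ∀ u v : ℝ, 0 ≤ u → u ≤ v → v ≤ 1 →
          |(count (Part P u v) Exceptional X : ℝ) - (v - u) * ((1 - δ) * X)| ≤
            ε * (v - u) * X + K * (X : ℝ) ^ (1 - c)) ∧
      (∀ (m' : ℕ) (a' b' : ℤ) (x ε : ℝ), 1 ≤ m' → 0 < ε → ∃ X₀ : ℕ, ∀ X : ℕ, X₀ ≤ X →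
        ∀ P : Polynomial ℝ, P.natDegree ≤ k → P.coeff k = α → ∀ u v : ℝ, 0 ≤ u → u ≤ v → v ≤ 1 →
          |(count (Part P u v) (Level m' a' b' x) X : ℝ) - (v - u) * (δ * Phi x / m' ^ 2 * X)| ≤
            ε * (v - u) * X + K * (X : ℝ) ^ (1 - c))) ∧
    (∃ ν₀ : ℝ, 0 < ν₀ ∧ ∀ P : Polynomial ℝ, P.natDegree ≤ k → P.coeff k = α → ∀ ν : ℝ, 0 ≤ ν → ν < ν₀ →
      (∀ θ C' : ℝ, 0 < θ → ∃ B : ℝ, 0 < B ∧
        ((∀ X : ℕ, 1 ≤ X → (count (Sparse P ν) (fun n => ¬ AtMost n ((n : ℝ) ^ B)) X : ℝ) ≤ C' * (X : ℝ) ^ (1 - ν - θ)) →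
        ∃ N : ℕ, ∀ n : ℕ, N ≤ n → l n ≤ n)) ∧
      ((∃ A : ℝ, ∀ᶠ n : ℕ in atTop, AtMost n ((n : ℝ) ^ A)) ↔
        ∃ B θ C' : ℝ, 0 < θ ∧ ∀ X : ℕ, 1 ≤ X →
          (count (Sparse P ν) (fun n => ¬ AtMost n ((n : ℝ) ^ B)) X : ℝ) ≤ C' * (X : ℝ) ^ (1 - ν - θ)) ∧
      (∀ θ C' : ℝ, 0 < θ → ∃ K : ℝ, ∀ ψ : ℝ → ℝ, Monotone ψ →
        (∀ X : ℕ, 1 ≤ X → (count (Sparse P ν) (fun n => ¬ AtMost n (ψ n)) X : ℝ) ≤ C' * (X : ℝ) ^ (1 - ν - θ)) →
        ∀ n : ℕ, 1 ≤ n → AtMost n (ψ (K * (n : ℝ) ^ K) + K * (1 + Real.log n)))) := by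
  classical
  obtain ⟨δ, hδ, h2, h3⟩ := nat2
  have hν := nu_pos'
  have hone : δ = 1 ↔ ∀ n : ℕ, 1 ≤ n → l n ≠ ⊤ := by
    rw [h2]
    refine forall₂_congr fun n _ => ?_
    rw [l_ne_top, CC_ex]
  refine ⟨δ, hδ.pos, hδ.le, hone, ?_⟩
  intro k α hk hα
  obtain ⟨k, rfl⟩ : ∃ k', k = k' + 1 := ⟨k - 1, by omega⟩
  have hk1 : 1 ≤ k := by omega
  have hα' : Dioph α := hα
  have hEi : ∀ (P : Polynomial ℝ) (u v : ℝ), ind (fun n => n ∈ Part P u v) = ind (Fr 1 0 P u v) := by
    intro P u v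
    funext n
    apply ind_congr
    unfold Fr Part
    simp
  refine ⟨fun M hM => ?_, ?_, ?_⟩
  · obtain ⟨K, c, hc⟩ : ∃ K c : ℝ, 0 < c ∧ ∀ b ∈ Finset.range M, ∀ φ : ℕ∞ → ℕ → ℝ, (∀ s o, |φ s o| ≤ 1) →
        ∀ P : Polynomial ℝ, P.natDegree ≤ k + 1 → P.coeff (k + 1) = α → ∀ u v : ℝ, 0 ≤ u → u ≤ v → v ≤ 1 →
        ∀ (X : ℕ), 1 ≤ X →
        |total φ M b (Part P u v) X - (v - u) * total φ M b Set.univ X| ≤ K * (X : ℝ) ^ (1 - c) := by
      have h1 : ∀ b : ℕ, ∃ K c : ℝ, 0 ≤ K ∧ 0 < c ∧ ∀ φ : ℕ∞ → ℕ → ℝ, (∀ s o, |φ s o| ≤ 1) →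
          ∀ P : Polynomial ℝ, P.natDegree ≤ k + 1 → P.coeff (k + 1) = α → ∀ u v : ℝ, 0 ≤ u → u ≤ v → v ≤ 1 →
          ∀ (X : ℕ), 1 ≤ X →
          |total φ M b (Part P u v) X - (v - u) * total φ M b Set.univ X| ≤ K * (X : ℝ) ^ (1 - c) := by
        intro b
        obtain ⟨C, c, hC, hc0, -, HT⟩ := pol_tr hk1 hα' hM (b : ℤ)
        refine ⟨C, c, hC, hc0, fun φ hφ P hP hPc u v hu huv hv X hX => ?_⟩
        rw [total_eq, total_univ]
        exact HT P hP hPc u v hu huv hv X hX _ _ (fun k o => hφ _ _) (hφ _ _)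
      choose K c hK hc H using h1
      obtain ⟨c0, hc0, hc0'⟩ := exists_lower (Finset.range M) c hc
      refine ⟨∑ b ∈ Finset.range M, K b, c0, hc0, fun b hb φ hφ P hP hPc u v hu huv hv X hX => ?_⟩
      refine (H b φ hφ P hP hPc u v hu huv hv X hX).trans ?_
      have hXR : (1 : ℝ) ≤ X := by exact_mod_cast hX
      exact mul_le_mul (Finset.single_le_sum (f := K) (fun i _ => hK i) hb)
        (Real.rpow_le_rpow_of_exponent_le hXR (by linarith [hc0' b hb])) (by positivity)
        (Finset.sum_nonneg fun i _ => hK i)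
    refine ⟨K, c, hc.1, fun φ hφ P hP hPc u v hu huv hv b X hX => ?_⟩
    have hMz : (0 : ℤ) < M := by exact_mod_cast hM
    have hb0 := Int.emod_nonneg b hMz.ne'
    have hb1 := Int.emod_lt_of_pos b hMz
    have h4 := hc.2 (b % M).toNat (Finset.mem_range.2 (by omega)) φ hφ P hP hPc u v hu huv hv X hX
    have h5 : (((b % M).toNat : ℕ) : ℤ) = b % M := Int.toNat_of_nonneg hb0
    have h6 : ∀ E : Set ℕ, total φ M (((b % M).toNat : ℕ) : ℤ) E X = total φ M b E X := by
      intro E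
      unfold total
      apply Finset.sum_congr _ fun _ _ => rfl
      apply Finset.filter_congr
      intro n _
      apply and_congr_left
      intro _
      rw [h5]
      have h7 : (n : ℤ) - b = (n - b % M) - M * (b / M) := by
        have := Int.mul_ediv_add_emod b M
        linarith
      rw [h7]
      exact (dvd_sub_left (dvd_mul_right _ _)).symm
    rw [h6, h6] at h4
    exact h4
  · obtain ⟨C, c, hC, hc0, hc1, HT⟩ := pol_tr hk1 hα' (M := 1) le_rfl 0
    have HT' : ∀ P : Polynomial ℝ, P.natDegree ≤ k + 1 → P.coeff (k + 1) = α → ∀ u v : ℝ, 0 ≤ u → u ≤ v → v ≤ 1 →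
        ∀ N : ℕ, 1 ≤ N → TrF (ind (Fr 1 0 P u v)) (fun _ => (1 : ℝ)) (v - u) (C * (N : ℝ) ^ (1 - c)) N := by
      intro P hP hPc u v hu huv hv N hN
      have h := HT P hP hPc u v hu huv hv N hN
      rw [ind_all] at h
      exact h
    refine ⟨4 * C, c, hc0, ?_, ?_⟩
    · intro ε hε
      have hL := lawId_L hδ
      have hfin : Mn (fun n => (fun _ : ℕ => (1 : ℝ)) n * ind (fun n => ∃ k, H k n) n) δ := by
        have h := hδ.fin
        have e : ind (fun n => True ∧ ∃ k, H k n) = fun n => (fun _ : ℕ => (1 : ℝ)) n * ind (fun n => ∃ k, H k n) n := by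
          funext n
          rw [one_mul]
          exact ind_congr (by simp)
        rw [e] at h
        exact h
      obtain ⟨N0, h⟩ := exc_unif (val := valL) (A := 3 / Real.log (4 / 3)) (b := bL) (δ := δ) (e := 1) (by positivity) bL_pos
        (v := fun _ => 1) (fun n => ⟨zero_le_one, le_rfl⟩)
        (fun y => by
          have h9 := hL.law y
          have e : ind (fun n => True ∧ Lv valL (fun _ _ => True) (th (3 / Real.log (4 / 3)) bL y) n) =
              fun n => (fun _ : ℕ => (1 : ℝ)) n * ind (Lv valL (fun _ _ => True) (th (3 / Real.log (4 / 3)) bL y)) n := by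
            funext n
            rw [one_mul]
            exact ind_congr (by simp)
          rw [e] at h9
          exact h9) hfin (Mn_const 1) (P := Exceptional)
        (fun n hn => by unfold Exceptional; rw [l_top hn]; exact ENat.natCast_lt_top n) (fun y => by
          filter_upwards [th_lin (3 / Real.log (4 / 3)) bL_pos one_pos y, log_small (3 / Real.log (4 / 3) + 1)] with n g1 g2
          rintro ⟨k', hk1, hk2, -⟩ hex
          unfold Exceptional at hex
          rw [l_H hk1] at hex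
          have h6 : n < k' + odn k' n := by exact_mod_cast hex
          have h7 : (n : ℝ) < ((k' + odn k' n : ℕ) : ℝ) := by exact_mod_cast h6
          have h9 : valL k' (odn k' n) = ((k' + odn k' n : ℕ) : ℝ) := rfl
          rw [h9] at hk2
          linarith [g1.2]) hε
      refine ⟨N0, fun X hX P hP hPc u v hu huv hv => ?_⟩
      have h1 := h X hX (ind (Fr 1 0 P u v)) (v - u) (C * (X : ℝ) ^ (1 - c)) (fun n => ind_nonneg _ _) (by linarith)
        (fun M h4 h5 g g0 hg hg0 => (HT' P hP hPc u v hu huv hv M h4 g g0 hg hg0).trans (pow_le hC hc1 h5))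
      rw [count_eq, hEi, mul_assoc 4 C]
      exact h1
    · intro m' a' b' x ε hm' hε
      obtain ⟨N0, h⟩ := law_of_tr (A := 3 / Real.log (4 / 3)) (b := bL) (val := valL) (cls := clsL m' a' b')
        (d := fun x => δ * Pool.Agent.H499R2.ND.Phi x / m' ^ 2) (by positivity) bL_pos
        ((Pool.Agent.H499R2.ND.Phi_continuous.const_mul δ).div_const _)
        (v := fun _ => 1) (fun n => ⟨zero_le_one, le_rfl⟩)
        (fun y => by simpa using hδ.lawL m' a' b' hm' y) x hε
      refine ⟨N0, fun X hX P hP hPc u v hu huv hv => ?_⟩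
      have h1 := h X hX (ind (Fr 1 0 P u v)) (v - u) (C * (X : ℝ) ^ (1 - c)) (fun n => ind_nonneg _ _) (by linarith)
        (fun M h4 h5 g g0 hg hg0 => (HT' P hP hPc u v hu huv hv M h4 g g0 hg hg0).trans (pow_le hC hc1 h5))
      have e : Pool.Agent.H499R2.ND.Phi x = Phi x := Pool.Agent.H499R2.ND.phi_cdf x
      rw [e] at h1
      rw [count_eq, hEi]
      have e2 : ∑ n ∈ Finset.Icc 1 X, ind (Fr 1 0 P u v) n * ind (Level m' a' b' x) n = ∑ n ∈ Finset.Icc 1 X,
          ind (Fr 1 0 P u v) n * ind (Lv valL (clsL m' a' b') (th (3 / Real.log (4 / 3)) bL x)) n := by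
        apply Finset.sum_congr rfl
        intro n _
        rw [ind_congr (level_iff m' a' b' x n)]
      rw [e2]
      refine h1.trans ?_
      have h10 : 0 ≤ C * (X : ℝ) ^ (1 - c) := by positivity
      linarith
  · obtain ⟨ν0, hν0, hν0', HR⟩ := rich_pol hk1 hα' (M := 1) le_rfl 0
    refine ⟨ν0, hν0, fun P hP hPc ν hν1 hν2 => ?_⟩
    have hR := HR P hP hPc ν hν1 hν2
    have hEs : ind (fun n => n ∈ Sparse P ν) =
        ind (fun n : ℕ => ((1 : ℕ) : ℤ) ∣ n - 0 ∧ Int.fract (P.eval (n : ℝ)) < (n : ℝ) ^ (-ν)) := by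
      funext n
      apply ind_congr
      unfold Sparse
      simp
    have hsuff : ∀ θ C' : ℝ, 0 < θ → ∃ K : ℝ, 1 ≤ K ∧ ∀ ψ : ℝ → ℝ, Monotone ψ →
        (∀ X : ℕ, 1 ≤ X → (count (Sparse P ν) (fun n => ¬ AtMost n (ψ n)) X : ℝ) ≤ C' * (X : ℝ) ^ (1 - ν - θ)) →
        ∀ n : ℕ, 1 ≤ n → AtMost n (ψ (K * (n : ℝ) ^ K) + K * (1 + Real.log n)) := by
      intro θ C' hθ
      have hB := baseLB_all (B := fun n : ℕ => ((1 : ℕ) : ℤ) ∣ n - 0) (fun n => by simp)
      obtain ⟨K, hK, HK⟩ := suff_ind hR hB (B' := fun _ => True) hN_all adv_L (C0 := C') hθ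
      refine ⟨K, hK, fun ψ hψ hbad n hn => ?_⟩
      rw [atMost_iff]
      refine HK ψ hψ (fun X hX => ?_) n hn trivial
      have h1 := hbad X hX
      rw [count_eq, hEs] at h1
      simp only [atMost_iff] at h1
      exact h1
    refine ⟨?_, ?_, ?_⟩
    · intro θ C' hθ
      obtain ⟨K, hK, HK⟩ := hsuff θ C' hθ
      refine ⟨1 / (2 * K), by positivity, fun hbad => ?_⟩
      have h4 := HK _ (mono_pow (B := 1 / (2 * K)) (by positivity)) (fun X hX => ?_)
      · obtain ⟨N, hN⟩ := ((half_pow hK).and (eventually_ge_atTop 1)).exists_forall_of_atTop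
        refine ⟨N, fun n hn => ?_⟩
        obtain ⟨g1, g2⟩ := hN n hn
        obtain ⟨t, ht1, ht2⟩ := h4 n g2
        rw [ht1]
        have h5 : (t : ℝ) ≤ n := ht2.trans g1
        exact_mod_cast h5
      · have e : ∀ n : ℕ, max ((n : ℝ)) 0 = n := fun n => max_eq_left (Nat.cast_nonneg n)
        simp only [e]
        exact hbad X hX
    · constructor
      · rintro ⟨A, hA⟩
        obtain ⟨N, hN⟩ := hA.exists_forall_of_atTop
        refine ⟨A, 1 - ν, N, by linarith, fun X hX => ?_⟩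
        have e9 : 1 - ν - (1 - ν) = 0 := by ring
        rw [e9, Real.rpow_zero, mul_one]
        have h4 : count (Sparse P ν) (fun n => ¬ AtMost n ((n : ℝ) ^ A)) X ≤ N := by
          unfold count
          have h5 : {n : ℕ | 1 ≤ n ∧ n ≤ X ∧ n ∈ Sparse P ν ∧ ¬ AtMost n ((n : ℝ) ^ A)} ⊆ (Finset.range N : Set ℕ) := by
            rintro n ⟨_, _, _, h6⟩
            rw [Finset.coe_range, Set.mem_Iio]
            by_contra hcon
            exact h6 (hN n (not_lt.1 hcon))
          have h7 := Set.ncard_le_ncard h5 (Finset.finite_toSet _)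
          rwa [Set.ncard_coe_finset, Finset.card_range] at h7
        exact_mod_cast h4
      · rintro ⟨B, θ, C', hθ, hbad⟩
        obtain ⟨K, hK, HK⟩ := hsuff θ C' hθ
        have hB0 : 0 ≤ max B 0 := le_max_right _ _
        refine ⟨K * max B 0 + 1, ?_⟩
        have h4 := HK _ (mono_pow hB0) (fun X hX => ?_)
        · filter_upwards [poly_bound hK hB0, eventually_ge_atTop 1] with n g1 g2
          obtain ⟨t, ht1, ht2⟩ := h4 n g2
          exact ⟨t, ht1, ht2.trans g1⟩
        · refine le_trans ?_ (hbad X hX)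
          rw [count_eq, count_eq]
          apply Finset.sum_le_sum
          intro n hn
          rw [Finset.mem_Icc] at hn
          apply mul_le_mul_of_nonneg_left _ (ind_nonneg _ _)
          have hnR : (1 : ℝ) ≤ n := by exact_mod_cast hn.1
          apply ind_mono
          intro k4 k5
          apply k4
          obtain ⟨t, ht1, ht2⟩ := k5
          refine ⟨t, ht1, ht2.trans ?_⟩
          rw [max_eq_left (Nat.cast_nonneg n)]
          exact Real.rpow_le_rpow_of_exponent_le hnR (le_max_left _ _)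
    · intro θ C' hθ
      obtain ⟨K, -, HK⟩ := hsuff θ C' hθ
      exact ⟨K, HK⟩

end Pool.Agent.Results.MP_e43fce_nt.FractionalParts
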