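import Mathlib
import Pool.Agent.X62.BF.Laws
import Pool.Agent.X62.BF.Cplx
import Pool.Agent.X62.BF.PhiS

set_option autoImplicit false

/-!
The total stopping times `l(n)` of the Collatz function and the exceptions `l(n) > n` at the products
`n = r * a * b` of two integers of very different sizes, in the strongest (bilinear) sense: the weights
`u a`, `v b` are arbitrary bounded complex numbers (in particular the indicator functions of two
arbitrary sets).
-/

namespace Pool.Agent.Results.MP_e43fce_nt.LevelsAtProducts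

open Filter Topology Finset

/-- the Collatz function -/
def C (n : ℕ) : ℕ := if n % 2 = 0 then n / 2 else 3 * n + 1

/-- `l` is the total stopping time `l(n)` of `n` -/
def IsTotalStoppingTime (n l : ℕ) : Prop := C^[l] n = 1 ∧ ∀ j < l, C^[j] n ≠ 1

/-- the number of odd terms among `n, C n, ..., C^(k-1) n` -/
def odds (k n : ℕ) : ℕ := ((Finset.range k).filter fun i => C^[i] n % 2 = 1).card

/-- `l(n) > n`, where `l(n) = ∞` is allowed: an exception to `l(n) ≤ n`. -/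
def Exception (n : ℕ) : Prop := ∀ l : ℕ, IsTotalStoppingTime n l → n < l

/-- the positive integers with the property `P` have the natural density `δ` -/
def HasDensity (P : ℕ → Prop) (δ : ℝ) : Prop :=
  Tendsto (fun N : ℕ => ({n : ℕ | 1 ≤ n ∧ n ≤ N ∧ P n}.ncard : ℝ) / N) atTop (𝓝 δ)

/-- `3 / log (4/3) * log n + x * log 6 * √(2 log n / (log (4/3))^3)` -/
noncomputable def bound (x : ℝ) (n : ℕ) : ℝ :=
  3 / Real.log (4 / 3) * Real.log n
    + x * (Real.log 6 * Real.sqrt (2 * Real.log n / Real.log (4 / 3) ^ 3))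

/-- The distribution function of the standard normal law. -/
noncomputable def Phi (x : ℝ) : ℝ :=
  ProbabilityTheory.cdf (ProbabilityTheory.gaussianReal 0 1) x

/-- `l(n)` is finite, at most `bound x n` and `≡ a` modulo `m`, and the number of odd terms before `1`
is `≡ b` modulo `m`. -/
def Level (m : ℕ) (a b : ℤ) (x : ℝ) (n : ℕ) : Prop :=
  ∃ l : ℕ, (l : ℝ) ≤ bound x n ∧ IsTotalStoppingTime n l ∧ (l : ℤ) ≡ a [ZMOD m] ∧ (odds l n : ℤ) ≡ b [ZMOD m]

/-- `l(n)` is finite and `|l(n) / log n - 3 / log (4/3)| ≤ η` -/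
def Typical (η : ℝ) (n : ℕ) : Prop :=
  ∃ l : ℕ, IsTotalStoppingTime n l ∧ |(l : ℝ) / Real.log n - 3 / Real.log (4 / 3)| ≤ η

open scoped Classical in
/-- THE FREQUENCY of the property `P` at the products of two integers is `l`, with arbitrary bounded
weights: for every `ε > 0` there is `ϑ > 0` such that for every `α > 0`, all large `N`, all `M` between
`N ^ α` and `N ^ ϑ`, all odd `r ≤ N ^ ϑ` and all complex `u a`, `v b` of absolute value at most `1`,
the sum of `u a * v b` over the pairs `a ∈ (M, 2 M]`, `b ∈ [1, N]` for which `r * a * b` has the property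
`P` is `l (∑ u a) (∑ v b)` up to `ε M N`. -/
def AtProducts (P : ℕ → Prop) (l : ℝ) : Prop := ∀ ε : ℝ, 0 < ε → ∃ ϑ : ℝ, 0 < ϑ ∧ ∀ α : ℝ, 0 < α →
  ∃ N₀ : ℕ, ∀ N M r : ℕ, N₀ ≤ N → (N : ℝ) ^ α ≤ M → (M : ℝ) ≤ (N : ℝ) ^ ϑ → r % 2 = 1 →
    (r : ℝ) ≤ (N : ℝ) ^ ϑ → ∀ u v : ℕ → ℂ, (∀ a, ‖u a‖ ≤ 1) → (∀ b, ‖v b‖ ≤ 1) →
    ‖∑ p ∈ (Ioc M (2 * M) ×ˢ Icc 1 N).filter (fun p => P (r * p.1 * p.2)), u p.1 * v p.2 -
      l * ((∑ a ∈ Ioc M (2 * M), u a) * ∑ b ∈ Icc 1 N, v b)‖ ≤ ε * (M * N)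

open Pool.Agent.X62.BF (PL PL_congr PL_squeeze PL_not PLC_sums PL_sets pl_laws lln)

theorem hit (n l : ℕ) (hn : 1 ≤ n) : IsTotalStoppingTime n l ↔
    ∃ k, Pool.Agent.H499R2.HL.H k n ∧ l = k + Pool.Agent.H499R2.LT.odn k n :=
  Pool.Agent.Y964.LW.hitC hn

theorem fin_iff (n : ℕ) (hn : 1 ≤ n) : (∃ l, IsTotalStoppingTime n l) ↔ ∃ k, Pool.Agent.H499R2.HL.H k n := by
  constructor
  · rintro ⟨l, hl⟩
    obtain ⟨k, hk, _⟩ := (hit n l hn).1 hl
    exact ⟨k, hk⟩
  · rintro ⟨k, hk⟩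
    exact ⟨_, (hit n _ hn).2 ⟨k, hk, rfl⟩⟩

/-- THE EXCEPTIONS `l(n) > n` AND THE LIMIT LAW OF `l(n)` AT THE PRODUCTS OF TWO INTEGERS.
Let `δ > 0` be the natural density of the positive integers with finite `l(n)` (`δ = 1` if and only if
`l(n)` is always finite). In the sense of `AtProducts` (pairs `a ∈ (M, 2 M]`, `b ≤ N` with arbitrary
bounded complex weights `u a * v b`, `N ^ α ≤ M ≤ N ^ ϑ`, uniformly in the odd factor `r ≤ N ^ ϑ`):
(1) the exceptions, i.e. the products `n = r a b` with `l(n) > n` or `l(n) = ∞`, have frequency `1 - δ`,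
and so have the products with `l(n) = ∞`;
(2) the products `n` with `l(n) ≤ 3 / log (4/3) log n + x log 6 √(2 log n / (log (4/3))^3)`, `l(n) ≡ a`
and number of odd terms before `1` `≡ b` modulo `m` have frequency `δ Φ(x) / m²`, `Φ` the standard normal
distribution function;
(3) for every `η > 0` the products `n` with `|l(n) / log n - 3 / log (4/3)| ≤ η` have frequency `δ`.
(4) For all `η > 0`, `c > 0` and `x > y`, `m ≥ 1`, `a`, `b` there is `ϑ > 0` such that for all `α > 0`, all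
large `N`, all `M` in `[N ^ α, N ^ ϑ]`, all odd `r ≤ N ^ ϑ` and all sets `A ⊆ (M, 2 M]` and `B ⊆ [1, N]`
with `|A| ≥ c M` and `|B| ≥ c N` there are `a' ∈ A`, `b' ∈ B` for which `n = r a' b'` is not an exception,
`|l(n) / log n - 3 / log (4/3)| ≤ η`, `l(n)` is between the bounds (2) for `y` and `x`, and `l(n)` and the
number of odd terms are in given residue classes modulo `m`. -/
theorem result : ∃ δ : ℝ, 0 < δ ∧ δ ≤ 1 ∧ (δ = 1 ↔ ∀ n : ℕ, 1 ≤ n → ∃ l, IsTotalStoppingTime n l) ∧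
    HasDensity (fun n => ∃ l, IsTotalStoppingTime n l) δ ∧
    AtProducts Exception (1 - δ) ∧
    AtProducts (fun n => ¬ ∃ l, IsTotalStoppingTime n l) (1 - δ) ∧
    (∀ (m : ℕ) (a b : ℤ) (x : ℝ), 1 ≤ m → AtProducts (Level m a b x) (δ * Phi x / m ^ 2)) ∧
    (∀ η : ℝ, 0 < η → AtProducts (Typical η) δ) ∧
    (∀ (η c : ℝ) (m : ℕ) (a b : ℤ) (x y : ℝ), 0 < η → 0 < c → 1 ≤ m → y < x → ∃ ϑ : ℝ, 0 < ϑ ∧
      ∀ α : ℝ, 0 < α → ∃ N₀ : ℕ, ∀ N M r : ℕ, N₀ ≤ N → (N : ℝ) ^ α ≤ M → (M : ℝ) ≤ (N : ℝ) ^ ϑ →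
      r % 2 = 1 → (r : ℝ) ≤ (N : ℝ) ^ ϑ → ∀ A B : Finset ℕ, A ⊆ Ioc M (2 * M) → B ⊆ Icc 1 N →
      c * M ≤ A.card → c * N ≤ B.card → ∃ a' ∈ A, ∃ b' ∈ B, ¬ Exception (r * a' * b') ∧
        Typical η (r * a' * b') ∧ Level m a b x (r * a' * b') ∧ ¬ Level m a b y (r * a' * b')) := by
  obtain ⟨δ, h0, h1, h2, h3, h4, h5⟩ := pl_laws
  have hH : PL (fun n => ∃ l, IsTotalStoppingTime n l) δ :=
    PL_congr 1 (fun n hn => (fin_iff n hn).symm) h4
  have hll : ∀ η : ℝ, 0 < η → PL (Typical η) δ := by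
    intro η hη
    have hrr := Pool.Agent.H499R2.HL.rr_pos
    have hl6 : 0 < Real.log 6 := Real.log_pos (by norm_num)
    have h6 := lln (f := fun k n => ((k + Pool.Agent.H499R2.LT.odn k n : ℕ) : ℝ))
      (α := 3 / Real.log (4 / 3))
      (σ := Real.log 6 * Pool.Agent.H499R2.HL.rr) (δ := δ) (η := η) (by positivity) h0.le h1 hη (fun x => by
        have h7 := ((h5 1 0 0 le_rfl).2.2 x).2.1
        have e1 : δ / ((1 : ℕ) : ℝ) ^ 2 * Pool.Agent.H499R2.ND.Phi x = δ * Pool.Agent.H499R2.ND.Phi x := by simp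
        rw [e1] at h7
        refine PL_congr 0 (fun n _ => exists_congr fun k => and_congr_right fun _ => ?_) h7
        rw [← Pool.Agent.Y964.LW.bc_thr]
        simp [Int.modEq_one]) h4
    refine PL_congr 2 (fun n hn => ?_) h6
    have hL : 0 < Real.log n := Real.log_pos (by exact_mod_cast (by omega : 1 < n))
    have e : ∀ t : ℕ, |(t : ℝ) - 3 / Real.log (4 / 3) * Real.log n| ≤ η * Real.log n ↔
        |(t : ℝ) / Real.log n - 3 / Real.log (4 / 3)| ≤ η := by
      intro t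
      have e1 : (t : ℝ) - 3 / Real.log (4 / 3) * Real.log n =
          ((t : ℝ) / Real.log n - 3 / Real.log (4 / 3)) * Real.log n := by field_simp
      rw [e1, abs_mul, abs_of_pos hL]
      exact mul_le_mul_iff_left₀ hL
    unfold Typical
    constructor
    · rintro ⟨k, hk, h8⟩
      exact ⟨_, (hit n _ (by omega)).2 ⟨k, hk, rfl⟩, (e _).1 h8⟩
    · rintro ⟨l, hl, h8⟩
      obtain ⟨k, hk, rfl⟩ := (hit n l (by omega)).1 hl
      exact ⟨k, hk, (e _).2 h8⟩
  have hTE : ∃ n0 : ℕ, ∀ n, n0 ≤ n → Typical 1 n → ¬ Exception n := by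
    have tl : Tendsto (fun n : ℕ => Real.log n / n) atTop (𝓝 0) := by
      have := Real.isLittleO_log_id_atTop.tendsto_div_nhds_zero
      exact this.comp tendsto_natCast_atTop_atTop
    have hnu : 0 < Real.log (4 / 3) := Real.log_pos (by norm_num)
    obtain ⟨n0, hn0⟩ := eventually_atTop.1 ((tl.const_mul (3 / Real.log (4 / 3) + 1)).eventually_lt_const
      (show (3 / Real.log (4 / 3) + 1) * 0 < 1 by rw [mul_zero]; exact one_pos))
    refine ⟨n0 + 2, fun n hn => ?_⟩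
    rintro ⟨l, hl, h8⟩ h
    have h9 := h l hl
    have h10 := hn0 n (by omega)
    have hnR : (0 : ℝ) < n := by exact_mod_cast (by omega : 0 < n)
    have hL : 0 < Real.log n := Real.log_pos (by exact_mod_cast (by omega : 1 < n))
    have h11 := (abs_le.1 h8).2
    have h12 : (l : ℝ) / Real.log n ≤ 3 / Real.log (4 / 3) + 1 := by linarith
    rw [div_le_iff₀ hL] at h12
    have h13 : (n : ℝ) < l := by exact_mod_cast h9
    rw [← mul_div_assoc, div_lt_one hnR] at h10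
    linarith
  have hE : PL Exception (1 - δ) := by
    obtain ⟨n0, hn0⟩ := hTE
    refine PL_squeeze fun ζ hζ =>
      ⟨fun n => ¬ ∃ l, IsTotalStoppingTime n l, fun n => ¬ Typical 1 n, 1 - δ, 1 - δ, n0, fun n _ h => ?_,
        fun n hn h => ?_, PL_not hH (fun _ => Iff.rfl),
        PL_not (hll 1 one_pos) (fun _ => Iff.rfl), le_rfl, le_rfl, by linarith⟩
    · intro l hl
      exact absurd ⟨l, hl⟩ h
    · intro h8
      exact hn0 n hn h8 h
  have hL : ∀ (m : ℕ) (a b : ℤ) (x : ℝ), 1 ≤ m → PL (Level m a b x) (δ * Phi x / m ^ 2) := by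
    intro m a b x hm
    have h6 := ((h5 m a b hm).2.2 x).2.1
    have e : δ / (m : ℝ) ^ 2 * Pool.Agent.H499R2.ND.Phi x = δ * Phi x / m ^ 2 := by
      unfold Phi
      rw [← Pool.Agent.H499R2.ND.phi_cdf]
      ring
    rw [e] at h6
    refine PL_congr 1 (fun n hn => ?_) h6
    constructor
    · rintro ⟨k, hk, g1, g2, g3⟩
      refine ⟨_, g1, (hit n _ hn).2 ⟨k, hk, rfl⟩, g2, ?_⟩
      have : odds (k + Pool.Agent.H499R2.LT.odn k n) n = Pool.Agent.H499R2.LT.odn k n :=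
        Pool.Agent.Y964.LW.ocn_run k n
      rw [this]
      exact g3
    · rintro ⟨l, g1, hl, g2, g3⟩
      obtain ⟨k, hk, rfl⟩ := (hit n l hn).1 hl
      have : odds (k + Pool.Agent.H499R2.LT.odn k n) n = Pool.Agent.H499R2.LT.odn k n :=
        Pool.Agent.Y964.LW.ocn_run k n
      rw [this] at g3
      exact ⟨k, hk, g1, g2, g3⟩
  refine ⟨δ, h0, h1, ?_, ?_, PLC_sums hE, PLC_sums (PL_not hH (fun _ => Iff.rfl)),
    fun m a b x hm => PLC_sums (hL m a b x hm), fun η hη => PLC_sums (hll η hη), ?_⟩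
  · rw [h2]
    refine forall₂_congr fun n hn => ?_
    rw [fin_iff n hn]
    exact Pool.Agent.Y964.LW.hit_iff n
  · refine Pool.Agent.H499R2.LT.Dn_iff (fun n hn => ?_) h3
    rw [fin_iff n hn]
    exact Pool.Agent.Y964.LW.hit_iff n
  · intro η c m a b x y hη hc hm hyx
    classical
    have hm0 : (0 : ℝ) < m := by exact_mod_cast hm
    have hPhi : Phi y < Phi x := by
      unfold Phi
      rw [← Pool.Agent.H499R2.ND.phi_cdf, ← Pool.Agent.H499R2.ND.phi_cdf]
      exact Pool.Agent.X62.BF.Phi_strict hyx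
    -- the set of the good products
    have hmono : ∀ n, Level m a b y n → Level m a b x n := by
      rintro n ⟨l, g1, g2, g3⟩
      refine ⟨l, g1.trans ?_, g2, g3⟩
      unfold bound
      have : 0 ≤ Real.log 6 * Real.sqrt (2 * Real.log n / Real.log (4 / 3) ^ 3) := by
        have : 0 ≤ Real.log 6 := Real.log_nonneg (by norm_num)
        positivity
      nlinarith
    have hd := Pool.Agent.X62.BF.PL_diff (hL m a b y hm) (hL m a b x hm) hmono
      (R := fun n => Level m a b x n ∧ ¬ Level m a b y n) (fun _ => Iff.rfl)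
    have hnt := PL_not (hll (min η 1) (lt_min hη one_pos)) (R := fun n => ¬ Typical (min η 1) n) (fun _ => Iff.rfl)
    have hnf := PL_not hH (R := fun n => ¬ ∃ l, IsTotalStoppingTime n l) (fun _ => Iff.rfl)
    set dl : ℝ := δ * Phi x / m ^ 2 - δ * Phi y / m ^ 2 with hdl
    have hl0 : 0 < dl := by
      have e : dl = δ * (Phi x - Phi y) / m ^ 2 := by rw [hdl]; ring
      rw [e]
      have : 0 < Phi x - Phi y := by linarith
      positivity
    obtain ⟨ϑ1, t1, k1⟩ := PL_sets hd (dl * c ^ 2 / 8) (by positivity)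
    obtain ⟨ϑ2, t2, k2⟩ := PL_sets hnt (dl * c ^ 2 / 8) (by positivity)
    obtain ⟨ϑ3, t3, k3⟩ := PL_sets hnf (dl * c ^ 2 / 8) (by positivity)
    refine ⟨min ϑ1 (min ϑ2 ϑ3), lt_min t1 (lt_min t2 t3), fun α hα => ?_⟩
    obtain ⟨N1, k1⟩ := k1 α hα
    obtain ⟨N2, k2⟩ := k2 α hα
    obtain ⟨N3, k3⟩ := k3 α hα
    obtain ⟨n0, hn0⟩ := hTE
    have tl : Tendsto (fun N : ℕ => (N : ℝ) ^ α) atTop atTop :=
      (tendsto_rpow_atTop hα).comp tendsto_natCast_atTop_atTop
    obtain ⟨N4, hN4⟩ := eventually_atTop.1 (tl.eventually_ge_atTop (n0 : ℝ))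
    refine ⟨max (max N1 N2) (max N3 (max N4 1)), fun N M r hN hM1 hM2 hr hr2 A B hA hB hAc hBc => ?_⟩
    have hN1 : N1 ≤ N := by omega
    have hN2 : N2 ≤ N := by omega
    have hN3 : N3 ≤ N := by omega
    have hN4' : N4 ≤ N := by omega
    have hN5 : 1 ≤ N := by omega
    have hNr : (1 : ℝ) ≤ N := by exact_mod_cast hN5
    have m1 : (N : ℝ) ^ min ϑ1 (min ϑ2 ϑ3) ≤ (N : ℝ) ^ ϑ1 := Real.rpow_le_rpow_of_exponent_le hNr (min_le_left _ _)
    have m2 : (N : ℝ) ^ min ϑ1 (min ϑ2 ϑ3) ≤ (N : ℝ) ^ ϑ2 := Real.rpow_le_rpow_of_exponent_le hNr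
      ((min_le_right _ _).trans (min_le_left _ _))
    have m3 : (N : ℝ) ^ min ϑ1 (min ϑ2 ϑ3) ≤ (N : ℝ) ^ ϑ3 := Real.rpow_le_rpow_of_exponent_le hNr
      ((min_le_right _ _).trans (min_le_right _ _))
    have f1 : |(((A ×ˢ B).filter (fun p => Level m a b x (r * p.1 * p.2) ∧ ¬ Level m a b y (r * p.1 * p.2))).card : ℝ) -
        dl * (A.card * B.card)| ≤ dl * c ^ 2 / 8 * (M * N) := by
      convert k1 N M r hN1 hM1 (hM2.trans m1) hr (hr2.trans m1) A B hA hB
    have f2 : |(((A ×ˢ B).filter (fun p => ¬ Typical (min η 1) (r * p.1 * p.2))).card : ℝ) -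
        (1 - δ) * (A.card * B.card)| ≤ dl * c ^ 2 / 8 * (M * N) := by
      convert k2 N M r hN2 hM1 (hM2.trans m2) hr (hr2.trans m2) A B hA hB
    have f3 : |(((A ×ˢ B).filter (fun p => ¬ ∃ l, IsTotalStoppingTime (r * p.1 * p.2) l)).card : ℝ) -
        (1 - δ) * (A.card * B.card)| ≤ dl * c ^ 2 / 8 * (M * N) := by
      convert k3 N M r hN3 hM1 (hM2.trans m3) hr (hr2.trans m3) A B hA hB
    have hn0M : n0 ≤ M := by exact_mod_cast (hN4 N hN4').trans hM1
    have hMN : (0 : ℝ) < (M : ℝ) * N := by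
      have : (0 : ℝ) < (N : ℝ) ^ α := Real.rpow_pos_of_pos (by linarith) _
      have : (0 : ℝ) < M := by linarith
      positivity
    have hAB : c ^ 2 * ((M : ℝ) * N) ≤ (A.card : ℝ) * B.card := by
      have : (c * M) * (c * N) ≤ (A.card : ℝ) * B.card := by
        apply mul_le_mul hAc hBc
        · positivity
        · positivity
      linarith
    by_contra hcon
    push Not at hcon
    -- the pairs of the first kind are not typical
    have hsub : (A ×ˢ B).filter (fun p => Level m a b x (r * p.1 * p.2) ∧ ¬ Level m a b y (r * p.1 * p.2)) ⊆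
        ((A ×ˢ B).filter (fun p => ¬ Typical (min η 1) (r * p.1 * p.2))) \
        ((A ×ˢ B).filter (fun p => ¬ ∃ l, IsTotalStoppingTime (r * p.1 * p.2) l)) := by
      intro p hp
      rw [mem_filter, mem_product] at hp
      obtain ⟨⟨hpA, hpB⟩, hp1, hp2⟩ := hp
      rw [Finset.mem_sdiff, mem_filter, mem_filter, mem_product]
      refine ⟨⟨⟨hpA, hpB⟩, fun hT => ?_⟩, ?_⟩
      · have hT1 : Typical 1 (r * p.1 * p.2) := by
          obtain ⟨l, hl, hl2⟩ := hT
          exact ⟨l, hl, hl2.trans (min_le_right _ _)⟩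
        have hT2 : Typical η (r * p.1 * p.2) := by
          obtain ⟨l, hl, hl2⟩ := hT
          exact ⟨l, hl, hl2.trans (min_le_left _ _)⟩
        have hp1' := (mem_Ioc.1 (hA hpA)).1
        have hp2' := (mem_Icc.1 (hB hpB)).1
        have hge : n0 ≤ r * p.1 * p.2 := by
          have h1r : 1 ≤ r := by omega
          calc n0 ≤ p.1 := by omega
            _ = 1 * p.1 * 1 := by ring
            _ ≤ r * p.1 * p.2 := Nat.mul_le_mul (Nat.mul_le_mul_right _ h1r) hp2'
        exact hp2 (hcon p.1 hpA p.2 hpB (hn0 _ hge hT1) hT2 hp1)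
      · intro h
        obtain ⟨l, _, hl, _⟩ := hp1
        exact h.2 ⟨l, hl⟩
    have hsub2 : (A ×ˢ B).filter (fun p => ¬ ∃ l, IsTotalStoppingTime (r * p.1 * p.2) l) ⊆
        (A ×ˢ B).filter (fun p => ¬ Typical (min η 1) (r * p.1 * p.2)) := by
      intro p hp
      rw [mem_filter] at hp ⊢
      refine ⟨hp.1, fun hT => hp.2 ?_⟩
      obtain ⟨l, hl, _⟩ := hT
      exact ⟨l, hl⟩
    have hc1 := card_le_card hsub
    rw [card_sdiff_of_subset hsub2] at hc1
    have hc2 := card_le_card hsub2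
    have hc3 : (((A ×ˢ B).filter (fun p => Level m a b x (r * p.1 * p.2) ∧ ¬ Level m a b y (r * p.1 * p.2))).card : ℝ) ≤
        ((A ×ˢ B).filter (fun p => ¬ Typical (min η 1) (r * p.1 * p.2))).card -
        ((A ×ˢ B).filter (fun p => ¬ ∃ l, IsTotalStoppingTime (r * p.1 * p.2) l)).card := by
      rw [← Nat.cast_sub hc2]
      exact_mod_cast hc1
    rw [abs_le] at f1 f2 f3
    have h9 : dl * (c ^ 2 * ((M : ℝ) * N)) ≤ dl * ((A.card : ℝ) * B.card) := mul_le_mul_of_nonneg_left hAB hl0.le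
    have h10 : 0 < dl * c ^ 2 * ((M : ℝ) * N) := by positivity
    linarith [f1.1, f2.2, f3.1]

end Pool.Agent.Results.MP_e43fce_nt.LevelsAtProducts
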